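import Pool.Agent.W169.HF.DefsB
import Pool.Agent.W806.HF.Rep

/-!
Project HF, task FWD: zero-free half-strips give zeros on the line.  The lemmas `exlog` and
`compare` are copied from `Pool.Agent.W186.HZ.Fwd` (helper186).
-/

set_option autoImplicit false

open Complex MeasureTheory Filter Topology Set
open scoped ComplexConjugate

namespace W327.HF

open Pool.Agent.W169.HF

lemma exlog {k : ℂ → ℂ} {r : ℝ} (hr : 0 < r) (hk : DifferentiableOn ℂ k (Metric.ball 0 r))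
    (hk0 : ∀ z ∈ Metric.ball (0 : ℂ) r, k z ≠ 0) (h1 : k 0 = 1) :
    ∃ f : ℂ → ℂ, DifferentiableOn ℂ f (Metric.ball 0 r) ∧ f 0 = 0 ∧
      ∀ z ∈ Metric.ball (0 : ℂ) r, k z = cexp (f z) := by
  have hd : DifferentiableOn ℂ (logDeriv k) (Metric.ball 0 r) :=
    (hk.deriv Metric.isOpen_ball).div hk hk0
  obtain ⟨G, hG⟩ := hd.isExactOn_ball
  have h0 : (0 : ℂ) ∈ Metric.ball (0 : ℂ) r := Metric.mem_ball_self hr
  refine ⟨fun z => G z - G 0, fun z hz => ((hG z hz).differentiableAt.sub_const _).differentiableWithinAt,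
    by simp, ?_⟩
  have hder : ∀ w ∈ Metric.ball (0 : ℂ) r, HasDerivAt (fun w => k w * cexp (-(G w - G 0))) 0 w := by
    intro w hw
    have hkw := (hk.differentiableAt (Metric.isOpen_ball.mem_nhds hw)).hasDerivAt
    have h2 : HasDerivAt (fun w => k w * cexp (-(G w - G 0))) _ w :=
      hkw.mul (((hG w hw).sub_const (G 0)).neg.cexp)
    refine h2.congr_deriv ?_
    rw [logDeriv_apply]
    have := hk0 w hw
    simp only [Pi.neg_apply]
    field_simp
    ring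
  intro z hz
  have := (convex_ball (0 : ℂ) r).norm_image_sub_le_of_norm_hasDerivWithin_le (C := 0)
    (fun w hw => (hder w hw).hasDerivWithinAt) (fun w _ => by simp) h0 hz
  rw [zero_mul] at this
  have h3 := sub_eq_zero.1 (norm_eq_zero.1 (le_antisymm this (norm_nonneg _)))
  simp only [sub_self, neg_zero, Complex.exp_zero, mul_one, h1] at h3
  have h4 : k z = (k z * cexp (-(G z - G 0))) * cexp (G z - G 0) := by
    rw [mul_assoc, ← Complex.exp_add]; simp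
  rw [h4, h3, one_mul]

/-- comparison of `J a` and `J (-a)` -/
lemma compare {J : ℂ → ℂ} {r M A a : ℝ} (hr : 0 < r) (hM : 0 < M) (hJ : ∀ z ∈ Metric.ball (0 : ℂ) r, DifferentiableAt ℂ J z)
    (hJ0 : ∀ z ∈ Metric.ball (0 : ℂ) r, J z ≠ 0)
    (hb : ∀ z ∈ Metric.ball (0 : ℂ) r, ‖J z‖ ≤ Real.exp (A * z.re + M) * ‖J (-z)‖)
    (ha : 0 < a) (ha2 : a ≤ r / 2) (hA : 4 * M < A * r) : ‖J (a : ℂ)‖ ≠ ‖J (-(a : ℂ))‖ := by
  have hneg : ∀ z ∈ Metric.ball (0 : ℂ) r, -z ∈ Metric.ball (0 : ℂ) r := by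
    intro z hz
    rw [mem_ball_zero_iff] at hz ⊢
    rwa [norm_neg]
  obtain ⟨f, hf, hf0, hfk⟩ := exlog (k := fun z => J z / (J (-z) * cexp (A * z))) hr
    (by
      intro z hz
      apply DifferentiableAt.differentiableWithinAt
      apply (hJ z hz).div
      · apply DifferentiableAt.mul
        · exact (hJ (-z) (hneg z hz)).comp z differentiableAt_id.neg
        · fun_prop
      · exact mul_ne_zero (hJ0 _ (hneg z hz)) (Complex.exp_ne_zero _))
    (fun z hz => div_ne_zero (hJ0 z hz) (mul_ne_zero (hJ0 _ (hneg z hz)) (Complex.exp_ne_zero _)))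
    (by
      have := hJ0 0 (Metric.mem_ball_self hr)
      simp [this])
  have hre : ∀ z ∈ Metric.ball (0 : ℂ) r, (f z).re ≤ M := by
    intro z hz
    have h1 : ‖J z / (J (-z) * cexp (A * z))‖ ≤ Real.exp M := by
      rw [norm_div, norm_mul, Complex.norm_exp, div_le_iff₀ (mul_pos (norm_pos_iff.2 (hJ0 _ (hneg z hz)))
        (Real.exp_pos _)), Complex.re_ofReal_mul]
      refine (hb z hz).trans (le_of_eq ?_)
      rw [Real.exp_add]
      ring
    rw [hfk z hz, Complex.norm_exp] at h1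
    exact Real.exp_le_exp.1 h1
  have haz : (a : ℂ) ∈ Metric.ball (0 : ℂ) r := by
    rw [mem_ball_zero_iff, Complex.norm_real, Real.norm_eq_abs, abs_of_pos ha]
    linarith
  have hbc := borelCaratheodory_zero hM hf (fun z hz => hre z hz) hr haz hf0
  rw [Complex.norm_real, Real.norm_eq_abs, abs_of_pos ha] at hbc
  have h2 : 2 * M * a / (r - a) ≤ 4 * M * a / r := by
    rw [div_le_div_iff₀ (by linarith) hr]
    have : 0 ≤ M * a := by positivity
    nlinarith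
  have h3 : -(4 * M * a / r) ≤ (f (a : ℂ)).re := by
    have := (Complex.abs_re_le_norm (f (a : ℂ))).trans (hbc.trans h2)
    rw [abs_le] at this
    exact this.1
  have h4 : J (a : ℂ) = J (-(a : ℂ)) * cexp (A * a) * cexp (f (a : ℂ)) := by
    rw [← hfk _ haz]
    have h5 := hJ0 _ (hneg _ haz)
    have h6 := Complex.exp_ne_zero ((A : ℂ) * a)
    field_simp
  intro heq
  rw [h4, norm_mul, norm_mul, Complex.norm_exp, Complex.norm_exp, mul_assoc, ← Real.exp_add] at heq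
  have h5 : 0 < ‖J (-(a : ℂ))‖ := norm_pos_iff.2 (hJ0 _ (hneg _ haz))
  have h6 : Real.exp (((A : ℂ) * a).re + (f (a : ℂ)).re) = 1 := by
    have h7 : ‖J (-(a : ℂ))‖ * Real.exp (((A : ℂ) * a).re + (f (a : ℂ)).re) = ‖J (-(a : ℂ))‖ * 1 := by
      rw [heq, mul_one]
    exact mul_left_cancel₀ h5.ne' h7
  rw [Real.exp_eq_one_iff] at h6
  have h7 : ((A : ℂ) * a).re = A * a := by simp
  rw [h7] at h6
  have h8 : 4 * M * a / r < A * a := by
    rw [div_lt_iff₀ hr]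
    nlinarith
  linarith


/-! ### The half-line integral is entire -/

theorem re_arg (t : ℝ) (a : ℂ) (r : ℝ) :
    (-((r : ℂ) ^ 2 / (4 * t)) + a * r).re = -(r ^ 2 / (4 * t)) + a.re * r := by
  have : ((r : ℂ) ^ 2 / (4 * t)) = ((r ^ 2 / (4 * t) : ℝ) : ℂ) := by push_cast; ring
  rw [this, Complex.add_re, Complex.neg_re, Complex.ofReal_re, Complex.mul_re, Complex.ofReal_re,
    Complex.ofReal_im, mul_zero, sub_zero]

theorem int_quad {b : ℝ} (hb : 0 < b) (c : ℝ) :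
    Integrable (fun r : ℝ => Real.exp (-(b * r ^ 2) + c * r)) := by
  have h := (integrable_cexp_quadratic (b := (b : ℂ)) (by simpa using hb) (c : ℂ) 0).norm
  refine h.congr (Eventually.of_forall fun r => ?_)
  simp only
  rw [Complex.norm_exp]
  congr 1
  simp [← Complex.ofReal_pow]

theorem slow_bound {f : ℂ → ℂ} (hf : Slow f) {t : ℝ} (ht : 0 < t) : ∃ K : ℝ, 0 < K ∧
    ∀ r : ℝ, ‖f r‖ ≤ K * Real.exp (r ^ 2 / (8 * t)) := by
  obtain ⟨K, hK, h⟩ := hf.2 (1 / (8 * t)) (by positivity)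
  refine ⟨K, hK, fun r => (h r).trans (le_of_eq ?_)⟩
  rw [Complex.norm_real, Real.norm_eq_abs, sq_abs]
  congr 2
  ring

theorem J_int {f : ℂ → ℂ} (hf : Slow f) {t : ℝ} (ht : 0 < t) (a : ℂ) :
    Integrable (fun r : ℝ => cexp (-((r : ℂ) ^ 2 / (4 * t)) + a * r) * f r) := by
  obtain ⟨K, hK, h⟩ := slow_bound hf ht
  refine ((int_quad (b := 1 / (8 * t)) (by positivity) a.re).const_mul K).mono' ?_
    (Eventually.of_forall fun r => ?_)
  · have := hf.1.continuous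
    exact Continuous.aestronglyMeasurable (by fun_prop)
  · rw [norm_mul, Complex.norm_exp]
    rw [re_arg]
    calc Real.exp (-(r ^ 2 / (4 * t)) + a.re * r) * ‖f r‖
        ≤ Real.exp (-(r ^ 2 / (4 * t)) + a.re * r) * (K * Real.exp (r ^ 2 / (8 * t))) := by
          gcongr; exact h r
      _ = K * Real.exp (-(r ^ 2 / (4 * t)) + a.re * r + r ^ 2 / (8 * t)) := by
          rw [Real.exp_add (-(r ^ 2 / (4 * t)) + a.re * r)]; ring
      _ = K * Real.exp (-(1 / (8 * t) * r ^ 2) + a.re * r) := by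
          congr 2; field_simp; ring

theorem J_diff {f : ℂ → ℂ} (hf : Slow f) {t : ℝ} (ht : 0 < t) (a : ℂ) :
    DifferentiableAt ℂ (J t f) a := by
  obtain ⟨K, hK, h⟩ := slow_bound hf ht
  have hc := hf.1.continuous
  have hre := re_arg t
  have key := hasDerivAt_integral_of_dominated_loc_of_deriv_le (𝕜 := ℂ)
    (μ := volume.restrict (Ioi (0 : ℝ))) (x₀ := a) (s := Metric.ball a 1)
    (F := fun (w : ℂ) (r : ℝ) => cexp (-((r : ℂ) ^ 2 / (4 * t)) + w * r) * f r)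
    (F' := fun (w : ℂ) (r : ℝ) => (cexp (-((r : ℂ) ^ 2 / (4 * t)) + w * r) * r) * f r)
    (bound := fun r : ℝ => K * Real.exp (-(1 / (8 * t) * r ^ 2) + (‖a‖ + 2) * r))
    (Metric.ball_mem_nhds a one_pos)
    (Eventually.of_forall fun w => (J_int hf ht w).integrableOn.aestronglyMeasurable)
    (J_int hf ht a).integrableOn
    (Continuous.aestronglyMeasurable (by fun_prop))
    (by
      rw [ae_restrict_iff' measurableSet_Ioi]
      refine Eventually.of_forall fun r hr w hw => ?_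
      have hr0 : (0 : ℝ) < r := hr
      rw [norm_mul, norm_mul, Complex.norm_exp, hre, Complex.norm_real, Real.norm_of_nonneg hr0.le]
      have h1 : w.re ≤ ‖a‖ + 1 := by
        rw [mem_ball_iff_norm] at hw
        calc w.re ≤ ‖w‖ := Complex.re_le_norm w
          _ = ‖a + (w - a)‖ := by rw [add_sub_cancel]
          _ ≤ ‖a‖ + ‖w - a‖ := norm_add_le _ _
          _ ≤ ‖a‖ + 1 := by linarith
      have h2 : r ≤ Real.exp r := (Real.add_one_le_exp r).trans' (by linarith)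
      calc Real.exp (-(r ^ 2 / (4 * t)) + w.re * r) * r * ‖f r‖
          ≤ Real.exp (-(r ^ 2 / (4 * t)) + (‖a‖ + 1) * r) * Real.exp r *
              (K * Real.exp (r ^ 2 / (8 * t))) := by
            gcongr; exact h r
        _ = K * Real.exp (-(r ^ 2 / (4 * t)) + (‖a‖ + 1) * r + r + r ^ 2 / (8 * t)) := by
            rw [Real.exp_add _ (r ^ 2 / (8 * t)), Real.exp_add _ r]; ring
        _ = K * Real.exp (-(1 / (8 * t) * r ^ 2) + (‖a‖ + 2) * r) := by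
            congr 2; field_simp; ring)
    (((int_quad (b := 1 / (8 * t)) (by positivity) (‖a‖ + 2)).const_mul K).integrableOn)
    (Eventually.of_forall fun r w _ => by
      have h1 : HasDerivAt (fun w : ℂ => -((r : ℂ) ^ 2 / (4 * t)) + w * r) (r : ℂ) w := by
        simpa using ((hasDerivAt_id w).mul_const (r : ℂ)).const_add (-((r : ℂ) ^ 2 / (4 * t)))
      exact h1.cexp.mul_const (f r))
  exact key.2.differentiableAt

theorem J_norm_le {f : ℂ → ℂ} {t : ℝ} (a : ℂ) : ‖J t f a‖ ≤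
    ∫ r in Ioi (0 : ℝ), Real.exp (-(r ^ 2 / (4 * t)) + a.re * r) * ‖f r‖ := by
  unfold J
  refine (norm_integral_le_integral_norm _).trans (le_of_eq ?_)
  refine integral_congr_ae (Eventually.of_forall fun r => ?_)
  simp only
  rw [norm_mul, Complex.norm_exp, re_arg]

/-! ### The representation of the heat flow -/

theorem slow_shift {f : ℂ → ℂ} (hf : Slow f) : Slow (fun s => f (s - 1 / 2)) := by
  refine ⟨hf.1.comp (by fun_prop), fun δ hδ => ?_⟩
  obtain ⟨K, hK, h⟩ := hf.2 (δ / 2) (by positivity)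
  refine ⟨K * Real.exp δ, by positivity, fun z => (h _).trans ?_⟩
  rw [mul_assoc, ← Real.exp_add]
  have h1 : ‖z - 1 / 2‖ ^ 2 ≤ 2 * ‖z‖ ^ 2 + 1 / 2 := by
    have h2 : ‖z - 1 / 2‖ ≤ ‖z‖ + 1 / 2 := by
      refine (norm_sub_le _ _).trans ?_
      simp
    have h3 := norm_nonneg (z - 1 / 2)
    nlinarith [sq_nonneg (‖z‖ - 1 / 2)]
  gcongr
  nlinarith

theorem heat_zero {f : ℂ → ℂ} (hf : Slow f) {ε : ℂ} (hε : ‖ε‖ = 1)
    (hfe : ∀ u : ℂ, f u = ε * conj (f (-conj u))) {t : ℝ} (ht : 0 < t) {x : ℝ}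
    (h0 : heat t f x = 0) : ‖J t f ((x / (2 * t) : ℝ) : ℂ)‖ = ‖J t f ((-(x / (2 * t)) : ℝ) : ℂ)‖ := by
  have h1 := Pool.Agent.W806.HF.rep (fun s => f (s - 1 / 2)) ε (slow_shift hf) (by
    intro s
    have e : -conj (s - 1 / 2) = 1 - conj s - 1 / 2 := by
      simp only [map_sub, map_div₀, map_one, map_ofNat]
      ring
    have e2 := hfe (s - 1 / 2)
    rw [e] at e2
    exact e2) t 0 x ht
  have h2 : heat t (fun s => f (s - 1 / 2)) (1 / 2 + (x : ℂ) + ((0 : ℝ) : ℂ) * I) = heat t f x := by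
    have e : ∀ v : ℝ, (1 / 2 + (x : ℂ) + ((0 : ℝ) : ℂ) * I + ((2 * Real.sqrt t * v : ℝ) : ℂ) - 1 / 2) =
        (x : ℂ) + ((2 * Real.sqrt t * v : ℝ) : ℂ) := by
      intro v
      push_cast; ring
    unfold heat
    simp only [e]
  have h3 : ∀ y : ℝ, hh t (fun u : ℝ => f (1 / 2 + (u : ℂ) + ((0 : ℝ) : ℂ) * I - 1 / 2)) y =
      J t f ((y / (2 * t) : ℝ) : ℂ) := by
    intro y
    unfold hh J
    refine integral_congr_ae (Eventually.of_forall fun r => ?_)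
    simp only
    congr 1
    · push_cast
      congr 1
      ring
    · congr 1
      push_cast; ring
  rw [h2, h0, h3, h3] at h1
  have h4 : (1 / Real.sqrt (4 * Real.pi * t) * Real.exp (-(x ^ 2 / (4 * t))) : ℝ) ≠ 0 := by
    have : 0 < Real.sqrt (4 * Real.pi * t) := Real.sqrt_pos.2 (by positivity)
    positivity
  rcases mul_eq_zero.1 h1.symm with h5 | h5
  · exact absurd (by exact_mod_cast h5) h4
  · have h6 : J t f ((x / (2 * t) : ℝ) : ℂ) = -(ε * conj (J t f ((-x / (2 * t) : ℝ) : ℂ))) :=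
      eq_neg_of_add_eq_zero_left h5
    rw [h6, norm_neg, norm_mul, hε, one_mul, Complex.norm_conj, neg_div]

theorem Pf_mono {κ κ' ϑ R ℓ G : ℝ} {f : ℂ → ℂ} (h : Pf κ ϑ R ℓ G f) (hκ : κ ≤ κ') (hℓ : 0 ≤ ℓ)
    (hG : 0 ≤ G) : Pf κ' ϑ R ℓ G f := by
  have h1 : κ * ℓ ≤ κ' * ℓ := mul_le_mul_of_nonneg_right hκ hℓ
  refine ⟨fun u a b c => le_trans ?_ (h.low u a b c), fun u a b => (h.upp u a b).trans ?_,
    fun u a b c => (h.der u a b c).trans h1⟩
  · exact mul_le_mul_of_nonneg_left (Real.exp_le_exp.2 (by linarith)) hG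
  · exact mul_le_mul_of_nonneg_left (Real.exp_le_exp.2 (by linarith)) hG

theorem fwd_of (h1 : S_PROF) (h2 : S_JU) (h3 : S_JL) : S_FWD := by
  intro K ϑ0 ϑ g X hK hϑ0 hϑ02 hϑ hϑϑ hg hX
  obtain ⟨g1, hg1⟩ : ∃ g1 : ℝ, g1 = min g 1 := ⟨_, rfl⟩
  have hg1p : 0 < g1 := by rw [hg1]; exact lt_min hg one_pos
  have hg1g : g1 ≤ g := by rw [hg1]; exact min_le_left _ _
  have hg11 : g1 ≤ 1 := by rw [hg1]; exact min_le_right _ _
  obtain ⟨θ, hθ⟩ : ∃ θ : ℝ, θ = ϑ + g1 / 8 := ⟨_, rfl⟩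
  obtain ⟨g', hg'⟩ : ∃ g' : ℝ, g' = g1 / 2 := ⟨_, rfl⟩
  have hX0 : 0 < X := by linarith
  have hg'p : 0 < g' := by rw [hg']; linarith
  have hg'1 : g' ≤ 1 := by rw [hg']; linarith
  have hθ0 : 0 ≤ θ := by rw [hθ]; linarith
  have hθ3 : θ ≤ 3 := by rw [hθ]; linarith
  obtain ⟨ζ0, hζ0, hJL⟩ := h3 K ϑ0 θ g' X 3 hK hϑ0 hϑ02 hθ0 hθ3 hg'p hg'1 hX le_rfl
  obtain ⟨ζ, hζd⟩ : ∃ ζ : ℝ, ζ = min ζ0 (g' / (64 * X)) := ⟨_, rfl⟩
  have hζ : 0 < ζ := by rw [hζd]; exact lt_min hζ0 (by positivity)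
  have hζ1 : ζ ≤ ζ0 := by rw [hζd]; exact min_le_left _ _
  have hζX : ζ * X ≤ g' / 64 := by
    have : ζ ≤ g' / (64 * X) := by rw [hζd]; exact min_le_right _ _
    rw [le_div_iff₀ (by positivity)] at this
    linarith
  have hζg : ζ ≤ g' / 64 := by nlinarith
  obtain ⟨κ0, ℓL, hκ0, hJL'⟩ := hJL ζ hζ hζ1
  obtain ⟨κ, hκd⟩ : ∃ κ : ℝ, κ = min κ0 (ζ * g' / 16) := ⟨_, rfl⟩
  have hκ : 0 < κ := by rw [hκd]; exact lt_min hκ0 (by positivity)
  have hκ1 : κ ≤ κ0 := by rw [hκd]; exact min_le_left _ _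
  have hκ2 : κ ≤ ζ * g' / 16 := by rw [hκd]; exact min_le_right _ _
  obtain ⟨ℓU, hJU⟩ := h2 K ϑ0 θ g' X 3 κ hK hϑ0 hϑ02 hθ0 hθ3 hg'p hg'1 hX le_rfl hκ
  obtain ⟨R, ℓP, hR, hP⟩ := h1 K ϑ0 ϑ (g1 / 8) κ (2 * X + 2 * 3 + 4) hK hϑ0 hϑ02 hϑ hϑϑ
    (by positivity) (by linarith) hκ (by linarith)
  refine ⟨R, max 1 (max ℓL (max ℓU ℓP)), ?_⟩
  intro ℓ G t f hℓ hUD ht hL1 hL2 hz x hx hx2 h0
  have hℓ1 : 1 ≤ ℓ := (le_max_left _ _).trans hℓ
  have hℓL : ℓL ≤ ℓ := ((le_max_left _ _).trans (le_max_right _ _)).trans hℓ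
  have hℓU : ℓU ≤ ℓ := (((le_max_left _ _).trans (le_max_right _ _)).trans (le_max_right _ _)).trans hℓ
  have hℓP : ℓP ≤ ℓ := (((le_max_right _ _).trans (le_max_right _ _)).trans (le_max_right _ _)).trans hℓ
  have hℓ0 : 0 < ℓ := by linarith
  have hG : 0 < G := hUD.hG
  have hPf : Pf κ θ (2 * X + 2 * 3 + 4) ℓ G f := by
    rw [hθ]
    exact hP ℓ G f hℓP hUD hz
  have hPf0 : Pf κ0 θ (2 * X + 2 * 3 + 4) ℓ G f := Pf_mono hPf hκ1 hℓ0.le hG.le
  have hgL : g' ≤ 2 * t * ℓ := by rw [hg']; linarith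
  have hθL : 2 * θ + g' ≤ 2 * t * ℓ := by rw [hθ, hg']; linarith
  -- the bounds for `J`
  have hlow : ∀ a : ℂ, |a.im| ≤ ζ * ℓ → 2 * t * a.re ≤ 3 → -(ζ * ℓ) ≤ a.re →
      G * Real.exp (t * (ℓ + a.re) ^ 2 - ζ ^ 2 * X * ℓ) ≤ ‖J t f a‖ := by
    intro a ha1 ha2 ha3
    exact hJL' ℓ G t f hℓL hUD hPf0 ht hgL hL2 a ha1 ha2 (Or.inl ⟨hθL, ha3⟩)
  have hupp : ∀ α : ℝ, 2 * t * α ≤ 3 → -(g' / 64 * ℓ) ≤ α →
      IntegrableOn (fun r : ℝ => Real.exp (-(r ^ 2 / (4 * t)) + α * r) * ‖f r‖) (Ioi 0) ∧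
      ∫ r in Ioi (0 : ℝ), Real.exp (-(r ^ 2 / (4 * t)) + α * r) * ‖f r‖ ≤
        G * Real.exp (t * (ℓ + α) ^ 2 + 2 * κ * ℓ) := by
    intro α ha1 ha2
    exact hJU ℓ G t f hℓU hUD hPf ht hgL hL2 α ha1 (Or.inl ⟨hθL, ha2⟩)
  obtain ⟨ε, hε, hfe⟩ := hUD.fe
  have heq := heat_zero hUD.slow hε hfe ht h0
  obtain ⟨a, had⟩ : ∃ a : ℝ, a = |x| / (2 * t) := ⟨_, rfl⟩
  have ha0 : 0 < a := by rw [had]; exact div_pos (abs_pos.2 hx) (by positivity)
  have h2ta : 2 * t * a ≤ 2 := by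
    have : 2 * t * a = |x| := by rw [had]; field_simp
    rw [this]; exact hx2
  have heq' : ‖J t f (a : ℂ)‖ = ‖J t f (-(a : ℂ))‖ := by
    rcases le_total 0 x with h | h
    · rw [had, abs_of_nonneg h, heq]
      push_cast
      rfl
    · rw [had, abs_of_nonpos h, neg_div]
      push_cast
      rw [neg_neg]
      push_cast at heq
      rw [← heq]
  have hb1 : 2 * t * (ζ * ℓ) ≤ 3 := by
    have : 2 * t * (ζ * ℓ) = ζ * (2 * t * ℓ) := by ring
    rw [this]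
    have h5 : ζ * (2 * t * ℓ) ≤ ζ * X := mul_le_mul_of_nonneg_left hL2 hζ.le
    linarith
  have hb2 : ζ * ℓ ≤ g' / 64 * ℓ := mul_le_mul_of_nonneg_right hζg hℓ0.le
  have hzX : ζ ^ 2 * X ≤ ζ * (g' / 64) := by
    have : ζ ^ 2 * X = ζ * (ζ * X) := by ring
    rw [this]
    exact mul_le_mul_of_nonneg_left hζX hζ.le
  have hLζ : ζ * g' ≤ ζ * (2 * t * ℓ) := mul_le_mul_of_nonneg_left hgL hζ.le
  have hζg0 : 0 < ζ * g' := by positivity
  rcases le_or_gt a (ζ * ℓ / 2) with hcase | hcase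
  · -- near the line
    have hball : ∀ z ∈ Metric.ball (0 : ℂ) (ζ * ℓ), |z.re| ≤ ζ * ℓ ∧ |z.im| ≤ ζ * ℓ := by
      intro z hz
      rw [mem_ball_zero_iff] at hz
      exact ⟨(Complex.abs_re_le_norm z).trans hz.le, (Complex.abs_im_le_norm z).trans hz.le⟩
    have hlow' : ∀ z ∈ Metric.ball (0 : ℂ) (ζ * ℓ),
        G * Real.exp (t * (ℓ + z.re) ^ 2 - ζ ^ 2 * X * ℓ) ≤ ‖J t f z‖ := by
      intro z hz
      obtain ⟨b1, b2⟩ := hball z hz
      rw [abs_le] at b1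
      refine hlow z b2 ?_ b1.1
      have : 2 * t * z.re ≤ 2 * t * (ζ * ℓ) := mul_le_mul_of_nonneg_left b1.2 (by positivity)
      linarith
    have hne : ∀ z ∈ Metric.ball (0 : ℂ) (ζ * ℓ), J t f z ≠ 0 := by
      intro z hz
      exact norm_pos_iff.1 (lt_of_lt_of_le (by positivity) (hlow' z hz))
    refine compare (J := J t f) (r := ζ * ℓ) (A := 4 * t * ℓ) (M := (2 * κ + ζ ^ 2 * X) * ℓ) (a := a)
      (by positivity) (by positivity) (fun z _ => J_diff hUD.slow ht z) hne ?_ ha0 hcase ?_ heq'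
    · intro z hz
      have hz' : -z ∈ Metric.ball (0 : ℂ) (ζ * ℓ) := by
        rw [mem_ball_zero_iff] at hz ⊢
        rwa [norm_neg]
      obtain ⟨b1, b2⟩ := hball z hz
      rw [abs_le] at b1
      have q1 := (J_norm_le (t := t) (f := f) z).trans (hupp z.re (by
        have : 2 * t * z.re ≤ 2 * t * (ζ * ℓ) := mul_le_mul_of_nonneg_left b1.2 (by positivity)
        linarith) (by linarith)).2
      have q2 := hlow' (-z) hz'
      rw [Complex.neg_re] at q2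
      calc ‖J t f z‖ ≤ G * Real.exp (t * (ℓ + z.re) ^ 2 + 2 * κ * ℓ) := q1
        _ = Real.exp (4 * t * ℓ * z.re + (2 * κ + ζ ^ 2 * X) * ℓ) *
              (G * Real.exp (t * (ℓ + -z.re) ^ 2 - ζ ^ 2 * X * ℓ)) := by
            rw [mul_left_comm, ← Real.exp_add]
            congr 2; ring
        _ ≤ _ := by gcongr
    · have e : 4 * t * ℓ * (ζ * ℓ) = 2 * (ζ * (2 * t * ℓ)) * ℓ := by ring
      rw [e]
      have e2 : 4 * ((2 * κ + ζ ^ 2 * X) * ℓ) = (4 * (2 * κ + ζ ^ 2 * X)) * ℓ := by ring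
      rw [e2]
      refine mul_lt_mul_of_pos_right ?_ hℓ0
      linarith
  · -- far from the line
    have q1 := hlow (a : ℂ) (by rw [Complex.ofReal_im, abs_zero]; positivity)
      (by rw [Complex.ofReal_re]; linarith) (by
        rw [Complex.ofReal_re]
        have : 0 < ζ * ℓ := by positivity
        linarith)
    rw [Complex.ofReal_re] at q1
    have q2 := hupp (-(ζ * ℓ / 2)) (by
      have : 0 < t * (ζ * ℓ) := by positivity
      linarith) (by
      have : 0 < ζ * ℓ := by positivity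
      linarith)
    have q3 : ‖J t f (-(a : ℂ))‖ ≤
        ∫ r in Ioi (0 : ℝ), Real.exp (-(r ^ 2 / (4 * t)) + -(ζ * ℓ / 2) * r) * ‖f r‖ := by
      refine (J_norm_le _).trans ?_
      refine setIntegral_mono_on ?_ q2.1 measurableSet_Ioi ?_
      · have := (J_int hUD.slow ht (-(a : ℂ))).norm.integrableOn (s := Ioi (0 : ℝ))
        refine this.congr (Eventually.of_forall fun r => ?_)
        simp only
        rw [norm_mul, Complex.norm_exp, re_arg]
      · intro r hr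
        have hr0 : (0 : ℝ) < r := hr
        rw [Complex.neg_re, Complex.ofReal_re]
        gcongr
    rw [← heq'] at q3
    have q4 := (q1.trans q3).trans q2.2
    have q5 := le_of_mul_le_mul_left q4 hG
    rw [Real.exp_le_exp] at q5
    have e1 : t * (ℓ + a) ^ 2 = t * ℓ ^ 2 + (2 * t * ℓ) * a + t * a ^ 2 := by ring
    have e2 : t * (ℓ + -(ζ * ℓ / 2)) ^ 2 ≤ t * ℓ ^ 2 := by
      have h5 : ζ * ℓ / 2 ≤ ℓ := by nlinarith
      have h6 : 0 ≤ ζ * ℓ / 2 := by positivity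
      refine mul_le_mul_of_nonneg_left ?_ ht.le
      apply pow_le_pow_left₀ <;> linarith
    have e3 : 0 ≤ t * a ^ 2 := by positivity
    have e4 : (2 * t * ℓ) * (ζ * ℓ / 2) ≤ (2 * t * ℓ) * a :=
      mul_le_mul_of_nonneg_left hcase.le (by positivity)
    have e5 : (2 * t * ℓ) * (ζ * ℓ / 2) = ζ * (2 * t * ℓ) / 2 * ℓ := by ring
    have e6 : (ζ ^ 2 * X + 2 * κ) * ℓ < ζ * (2 * t * ℓ) / 2 * ℓ := by
      refine mul_lt_mul_of_pos_right ?_ hℓ0
      linarith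
    have e7 : (ζ ^ 2 * X + 2 * κ) * ℓ = ζ ^ 2 * X * ℓ + 2 * κ * ℓ := by ring
    linarith

end W327.HF
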