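import Pool.Agent.W169.HF.DefsC
import Pool.Agent.W32.HF.Der
import Pool.Agent.W762.HF.HS
import Pool.Agent.W346.HF.Heat

set_option autoImplicit false

/-!
# Project SC, part SIZE: zeros of the heat flow on the line give a bound on the line
-/

namespace Pool.Agent.W327.HF

open Complex Filter Topology MeasureTheory Set
open scoped ComplexConjugate
open Pool.Agent.W169.HF

/-- the flow of a slow function is entire -/
lemma heat_diff {f : ℂ → ℂ} (hf : Slow f) {t : ℝ} (ht : 0 ≤ t) : Differentiable ℂ (heat t f) := by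
  rw [Pool.Agent.W346.HF.heat_of Pool.Agent.W32.HF.der f hf t ht]
  exact (Pool.Agent.W762.HF.hs_of Pool.Agent.W32.HF.der f hf t).2.1.1

/-- the functional equation of the flow -/
lemma fe_heat0 {f : ℂ → ℂ} {ε : ℂ} (h : ∀ u : ℂ, f u = ε * conj (f (-conj u))) (t : ℝ) (u : ℂ) :
    heat t f u = ε * conj (heat t f (-conj u)) := by
  unfold heat
  rw [map_mul, conj_ofReal, ← integral_conj]
  have e1 : ∀ v : ℝ, ((Real.exp (-v ^ 2) : ℝ) : ℂ) * f (u + ((2 * Real.sqrt t * v : ℝ) : ℂ)) =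
      ε * conj (((Real.exp (-v ^ 2) : ℝ) : ℂ) *
        f (-conj u + ((2 * Real.sqrt t * (-v) : ℝ) : ℂ))) := by
    intro v
    rw [h (u + ((2 * Real.sqrt t * v : ℝ) : ℂ)), map_mul, conj_ofReal, map_add, conj_ofReal]
    rw [show -(conj u + ((2 * Real.sqrt t * v : ℝ) : ℂ)) =
      -conj u + ((2 * Real.sqrt t * (-v) : ℝ) : ℂ) by push_cast; ring]
    ring
  rw [integral_congr_ae (Eventually.of_forall e1), integral_const_mul]
  have e2 : ∫ v : ℝ, conj (((Real.exp (-v ^ 2) : ℝ) : ℂ) *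
        f (-conj u + ((2 * Real.sqrt t * (-v) : ℝ) : ℂ))) =
      ∫ v : ℝ, conj (((Real.exp (-v ^ 2) : ℝ) : ℂ) *
        f (-conj u + ((2 * Real.sqrt t * v : ℝ) : ℂ))) := by
    rw [← integral_neg_eq_self (fun v : ℝ => conj (((Real.exp (-v ^ 2) : ℝ) : ℂ) *
        f (-conj u + ((2 * Real.sqrt t * v : ℝ) : ℂ))))]
    simp only [neg_sq]
  rw [e2]
  ring

lemma norm_fe {f : ℂ → ℂ} {ε : ℂ} (hε : ‖ε‖ = 1) (h : ∀ u : ℂ, f u = ε * conj (f (-conj u))) (t : ℝ)
    (u : ℂ) : ‖heat t f u‖ = ‖heat t f (-conj u)‖ := by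
  rw [fe_heat0 h t u, norm_mul, hε, one_mul, Complex.norm_conj]

lemma gauss_int {t c : ℝ} (ht : 0 < t) (hc : 0 < c) :
    Integrable (fun y : ℝ => Real.exp (-(y ^ 2 / (c * t)))) ∧
      ∫ y : ℝ, Real.exp (-(y ^ 2 / (c * t))) = Real.sqrt (c * Real.pi * t) := by
  have e : (fun y : ℝ => Real.exp (-(y ^ 2 / (c * t)))) =
      fun y : ℝ => Real.exp (-(1 / (c * t)) * y ^ 2) := by
    funext y
    congr 1
    ring
  rw [e]
  refine ⟨integrable_exp_neg_mul_sq (by positivity), ?_⟩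
  rw [integral_gaussian]
  congr 1
  field_simp

/-- bound for `f 0` from bounds for the flow on the imaginary axis -/
lemma at_zero (h4 : S_INV) {K t ℓ G a κ X ϑ0 R2 : ℝ} {f : ℂ → ℂ} (hf : Slow f) (ht : 0 < t)
    (hG : 0 < G) (hK : 1 ≤ K) (hX : 1 ≤ X) (h2 : 2 * t * ℓ ≤ X) (hℓ : 0 < ℓ) (hϑ : 0 ≤ ϑ0)
    (hR2 : 1 ≤ R2) (hR2' : 4 * X * ϑ0 ≤ R2 ^ 2) (hℓK : 16 * K * X ≤ ℓ) (ha : 0 ≤ a)
    (hκ : a * ℓ + 2 ≤ κ * ℓ)
    (hin : ∀ y : ℝ, |y| ≤ R2 → ‖heat t f (I * y)‖ ≤ G * Real.exp (a * ℓ))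
    (hout : ∀ y : ℝ, ‖heat t f (I * y)‖ ≤ G * Real.exp (ℓ * ϑ0 + K * (1 + y ^ 2))) :
    ‖f 0‖ ≤ G * Real.exp (κ * ℓ) := by
  have hXp : 0 < X := by linarith
  obtain ⟨hi, hv⟩ := h4 f hf t ht 0 0
  obtain ⟨g1, g2⟩ := gauss_int ht (by norm_num : (0 : ℝ) < 4)
  obtain ⟨g3, g4⟩ := gauss_int ht (by norm_num : (0 : ℝ) < 16)
  have hb : ∀ y : ℝ, ‖cexp (-((0 + (y : ℂ)) ^ 2 / (4 * t))) * heat t f (0 + I * (0 + y))‖ ≤
      G * Real.exp (a * ℓ) * Real.exp (-(y ^ 2 / (4 * t))) + G * Real.exp (-(y ^ 2 / (16 * t))) := by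
    intro y
    rw [zero_add, zero_add, norm_mul, Complex.norm_exp]
    have e1 : (-((y : ℂ) ^ 2 / (4 * t))).re = -(y ^ 2 / (4 * t)) := by
      have : (-((y : ℂ) ^ 2 / (4 * t))) = ((-(y ^ 2 / (4 * t)) : ℝ) : ℂ) := by push_cast; ring
      rw [this, Complex.ofReal_re]
    rw [e1]
    rcases le_or_gt |y| R2 with hy | hy
    · have := mul_le_mul_of_nonneg_left (hin y hy) (Real.exp_pos (-(y ^ 2 / (4 * t)))).le
      have h0 : 0 ≤ G * Real.exp (-(y ^ 2 / (16 * t))) := by positivity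
      linarith
    · have hy2 : R2 ^ 2 ≤ y ^ 2 := by
        rw [← sq_abs y]
        exact pow_le_pow_left₀ (by linarith) hy.le 2
      have hy1 : 1 ≤ y ^ 2 := le_trans (by nlinarith only [hR2]) hy2
      have a1 : K * (1 + y ^ 2) ≤ y ^ 2 / (16 * t) := by
        have b1 : K * (1 + y ^ 2) ≤ 2 * K * y ^ 2 := by nlinarith only [hy1, hK]
        have b2 : 2 * K ≤ 1 / (16 * t) := by
          rw [le_div_iff₀ (by positivity)]
          by_contra hcon
          push Not at hcon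
          have b3 : ℓ < 2 * K * (16 * t) * ℓ := by nlinarith only [hcon, hℓ]
          have b4 : 2 * K * (16 * t) * ℓ ≤ 16 * K * X := by
            calc 2 * K * (16 * t) * ℓ = 16 * K * (2 * t * ℓ) := by ring
              _ ≤ 16 * K * X := mul_le_mul_of_nonneg_left h2 (by positivity)
          linarith only [b3, b4, hℓK]
        calc K * (1 + y ^ 2) ≤ 2 * K * y ^ 2 := b1
          _ ≤ 1 / (16 * t) * y ^ 2 := mul_le_mul_of_nonneg_right b2 (sq_nonneg _)
          _ = _ := by ring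
      have a2 : ℓ * ϑ0 ≤ y ^ 2 / (8 * t) := by
        rw [le_div_iff₀ (by positivity)]
        calc ℓ * ϑ0 * (8 * t) = 4 * (2 * t * ℓ) * ϑ0 := by ring
          _ ≤ 4 * X * ϑ0 := by
            apply mul_le_mul_of_nonneg_right _ hϑ
            linarith only [h2]
          _ ≤ y ^ 2 := hR2'.trans hy2
      have a3 : -(y ^ 2 / (4 * t)) + (ℓ * ϑ0 + K * (1 + y ^ 2)) ≤ -(y ^ 2 / (16 * t)) := by
        have e2 : y ^ 2 / (4 * t) = y ^ 2 / (8 * t) + y ^ 2 / (16 * t) + y ^ 2 / (16 * t) := by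
          field_simp
          ring
        linarith only [a1, a2, e2]
      have a4 := mul_le_mul_of_nonneg_left (hout y) (Real.exp_pos (-(y ^ 2 / (4 * t)))).le
      have a5 : Real.exp (-(y ^ 2 / (4 * t))) * (G * Real.exp (ℓ * ϑ0 + K * (1 + y ^ 2))) ≤
          G * Real.exp (-(y ^ 2 / (16 * t))) := by
        calc _ = G * Real.exp (-(y ^ 2 / (4 * t)) + (ℓ * ϑ0 + K * (1 + y ^ 2))) := by
              rw [Real.exp_add (-(y ^ 2 / (4 * t)))]; ring
          _ ≤ _ := mul_le_mul_of_nonneg_left (Real.exp_le_exp.2 a3) hG.le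
      have h0 : 0 ≤ G * Real.exp (a * ℓ) * Real.exp (-(y ^ 2 / (4 * t))) := by positivity
      linarith
  have hgi : Integrable fun y : ℝ =>
      G * Real.exp (a * ℓ) * Real.exp (-(y ^ 2 / (4 * t))) + G * Real.exp (-(y ^ 2 / (16 * t))) :=
    (g1.const_mul _).add (g3.const_mul _)
  have h5 := norm_integral_le_of_norm_le hgi (Eventually.of_forall hb)
  rw [hv, integral_add (g1.const_mul _) (g3.const_mul _), integral_const_mul, integral_const_mul,
    g2, g4, norm_mul, Complex.norm_real, Real.norm_eq_abs, abs_of_nonneg (Real.sqrt_nonneg _)] at h5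
  have hs : 0 < Real.sqrt (4 * Real.pi * t) := Real.sqrt_pos.2 (by positivity)
  have hs2 : Real.sqrt (16 * Real.pi * t) = 2 * Real.sqrt (4 * Real.pi * t) := by
    rw [show 16 * Real.pi * t = 2 ^ 2 * (4 * Real.pi * t) by ring, Real.sqrt_mul (by norm_num),
      Real.sqrt_sq (by norm_num)]
  rw [hs2] at h5
  have h6 : ‖f 0‖ ≤ G * (Real.exp (a * ℓ) + 2) := by
    have : Real.sqrt (4 * Real.pi * t) * ‖f 0‖ ≤
        Real.sqrt (4 * Real.pi * t) * (G * (Real.exp (a * ℓ) + 2)) := by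
      calc _ ≤ _ := h5
        _ = _ := by ring
    exact le_of_mul_le_mul_left this hs
  refine h6.trans (mul_le_mul_of_nonneg_left ?_ hG.le)
  have h7 : 1 ≤ Real.exp (a * ℓ) := Real.one_le_exp (by positivity)
  have h8 : (3 : ℝ) ≤ Real.exp 2 := by
    have := Real.add_one_le_exp (2 : ℝ)
    linarith
  calc Real.exp (a * ℓ) + 2 ≤ Real.exp (a * ℓ) * 3 := by linarith
    _ ≤ Real.exp (a * ℓ) * Real.exp 2 := mul_le_mul_of_nonneg_left h8 (Real.exp_pos _).le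
    _ = Real.exp (a * ℓ + 2) := (Real.exp_add _ _).symm
    _ ≤ _ := Real.exp_le_exp.2 hκ

/-- `S_SIZE` from the other statements -/
theorem size_of (h1 : S_TC) (h2 : S_HUP) (h3 : S_HLO) (h4 : S_INV) (h5 : S_RECT) : S_SIZE := by
  intro K ϑ0 g X κ hK hϑ hϑ2 hg hX1 hκ
  have hXp : 0 < X := by linarith
  obtain ⟨μ, hμ⟩ : ∃ μ : ℝ, μ = min κ 1 := ⟨_, rfl⟩
  have hμ0 : 0 < μ := by rw [hμ]; exact lt_min hκ one_pos
  have hμ1 : μ ≤ 1 := by rw [hμ]; exact min_le_right _ _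
  have hμκ : μ ≤ κ := by rw [hμ]; exact min_le_left _ _
  obtain ⟨ρ, hρ⟩ : ∃ ρ : ℝ, ρ = μ / 8 := ⟨_, rfl⟩
  have hρ0 : 0 < ρ := by rw [hρ]; positivity
  have hρ1 : ρ ≤ 1 / 8 := by rw [hρ]; linarith
  obtain ⟨K', ℓ1, hK', hup⟩ := h2 K ϑ0 X hK hϑ hϑ2 hX1
  obtain ⟨R2, hR2d⟩ : ∃ R2 : ℝ, R2 = 4 * X * (ϑ0 + 1) := ⟨_, rfl⟩
  have hR21 : 1 ≤ R2 := by rw [hR2d]; nlinarith
  have hR2q : 4 * X * ϑ0 ≤ R2 ^ 2 := by
    have a1 : 4 * X * ϑ0 ≤ R2 := by rw [hR2d]; nlinarith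
    have a2 : R2 * 1 ≤ R2 * R2 := mul_le_mul_of_nonneg_left hR21 (by linarith)
    nlinarith
  obtain ⟨κ1, Rr, hκ1, hRr, hrect⟩ := h5 (ϑ0 + 2) (2 * ρ) (μ / 8) R2 (by linarith) (by positivity)
    (by linarith) (by positivity) hR21
  have hRr1 : 1 ≤ Rr := by linarith
  obtain ⟨κ2, R, hκ2, hR, htc⟩ := h1 (ϑ0 + 1) (ϑ0 + 1 / 2) 0 ρ κ1 Rr (by linarith) le_rfl hρ0 hκ1 hRr1
  have hR1 : 1 ≤ R := by linarith
  obtain ⟨ℓ2, hlo⟩ := h3 K ϑ0 g X κ2 R hK hϑ hϑ2 hg hX1 hκ2 hR1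
  refine ⟨R, max (max (max ℓ1 ℓ2) (max (16 * K' * X) (4 / μ))) (max (K' * (1 + 2 * R ^ 2))
    (K' * (2 + Rr ^ 2))), ?_⟩
  intro ℓ G t f hℓ hU ht hg1 hX2 hz
  have q1 : ℓ1 ≤ ℓ := (((le_max_left _ _).trans (le_max_left _ _)).trans (le_max_left _ _)).trans hℓ
  have q2 : ℓ2 ≤ ℓ := (((le_max_right _ _).trans (le_max_left _ _)).trans (le_max_left _ _)).trans hℓ
  have q3 : 16 * K' * X ≤ ℓ :=
    (((le_max_left _ _).trans (le_max_right _ _)).trans (le_max_left _ _)).trans hℓ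
  have q4 : 4 / μ ≤ ℓ := (((le_max_right _ _).trans (le_max_right _ _)).trans (le_max_left _ _)).trans hℓ
  have q5 : K' * (1 + 2 * R ^ 2) ≤ ℓ := ((le_max_left _ _).trans (le_max_right _ _)).trans hℓ
  have q6 : K' * (2 + Rr ^ 2) ≤ ℓ := ((le_max_right _ _).trans (le_max_right _ _)).trans hℓ
  have hLp : 0 < ℓ := by
    have : 0 < 16 * K' * X := by positivity
    linarith only [this, q3]
  rw [div_le_iff₀ hμ0] at q4
  obtain ⟨ε, hε, hfe⟩ := hU.fe
  have hG' : 0 < G * Real.exp (t * ℓ ^ 2) := mul_pos hU.hG (Real.exp_pos _)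
  have hUp := hup ℓ G t f q1 hU ht hX2
  have hFd := heat_diff hU.slow ht.le
  have hTC := htc ℓ (G * Real.exp (t * ℓ ^ 2)) (heat t f) hLp hG' hFd
    (fun u a1 a2 a3 => hz u a1 a3.le) (by
      intro u a1 a2 a3
      refine (hUp u).trans ?_
      apply mul_le_mul_of_nonneg_left _ hG'.le
      apply Real.exp_le_exp.2
      have b1 : ℓ * max |u.re| ϑ0 ≤ ℓ * (u.re + ϑ0) := by
        apply mul_le_mul_of_nonneg_left _ hLp.le
        rw [abs_of_pos a1]
        exact max_le (by linarith) (by linarith)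
      have b2 : ‖u‖ ^ 2 ≤ 2 * R ^ 2 := by
        rw [Complex.sq_norm, Complex.normSq_apply]
        have c1 : u.re * u.re ≤ R * R := mul_self_le_mul_self a1.le a2.le
        have c2 : u.im * u.im ≤ R * R := by
          rw [← abs_mul_abs_self u.im]
          exact mul_self_le_mul_self (abs_nonneg _) a3.le
        nlinarith only [c1, c2]
      have b3 : K' * (1 + ‖u‖ ^ 2) ≤ K' * (1 + 2 * R ^ 2) := by
        apply mul_le_mul_of_nonneg_left _ (by linarith)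
        linarith
      linarith only [b1, b3, q5]) (by
      intro u a1 a2 a3
      exact hlo ℓ G t f q2 hU ht hg1 hX2 u a1.le a2.le a3.le)
  have hρR : ρ ≤ Rr := by linarith
  have hright : ∀ u : ℂ, u.re = ρ → |u.im| ≤ Rr →
      ‖heat t f u‖ ≤ G * Real.exp (t * ℓ ^ 2) * Real.exp (ℓ * ρ + κ1 * ℓ) := by
    intro u b1 b2
    have := (hTC u (by rw [b1, zero_add]) (by rw [b1]; exact hρR) b2).2.1
    rwa [b1] at this
  have hbox := hrect ℓ (-ρ) ρ ρ (G * Real.exp (t * ℓ ^ 2)) (heat t f) hLp.le hG' hFd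
    (by rw [abs_of_pos hρ0]; linarith) (by rw [abs_of_pos hρ0]; linarith) (by
      intro u b1 b2
      rw [norm_fe hε hfe t u]
      apply hright
      · simp [b1]
      · simpa using b2) (by
      intro u b1 b2
      exact hright u (by rw [b1]; ring) b2) (by
      intro u b1 b2 b3
      refine (hUp u).trans ?_
      apply mul_le_mul_of_nonneg_left _ hG'.le
      apply Real.exp_le_exp.2
      have c0 : |u.re| ≤ ρ := abs_le.2 ⟨b1, by linarith⟩
      have c1 : max |u.re| ϑ0 ≤ ϑ0 := max_le (by linarith) le_rfl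
      have c2 : ℓ * max |u.re| ϑ0 ≤ ℓ * ϑ0 := mul_le_mul_of_nonneg_left c1 hLp.le
      have c3 : ‖u‖ ^ 2 ≤ 1 + Rr ^ 2 := by
        rw [Complex.sq_norm, Complex.normSq_apply, ← abs_mul_abs_self u.re,
          ← abs_mul_abs_self u.im, b3]
        nlinarith [abs_nonneg u.re]
      have c4 : K' * (1 + ‖u‖ ^ 2) ≤ K' * (2 + Rr ^ 2) := by
        apply mul_le_mul_of_nonneg_left _ (by linarith)
        linarith
      nlinarith)
  have hfin := at_zero h4 (K := K') (t := t) (ℓ := ℓ) (G := G * Real.exp (t * ℓ ^ 2)) (a := μ / 4)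
    (κ := μ) (X := X) (ϑ0 := ϑ0) (R2 := R2) hU.slow ht hG' hK' hX1 hX2 hLp (by linarith) hR21 hR2q
    (by linarith) (by positivity) (by nlinarith) (by
      intro y hy
      have := hbox (I * y) (by simp [hρ0.le]) (by simp; linarith) (by simpa using hy)
      refine this.trans (mul_le_mul_of_nonneg_left (Real.exp_le_exp.2 ?_) hG'.le)
      rw [sub_self, zero_mul, add_zero, hρ]
      apply le_of_eq
      ring) (by
      intro y
      refine (hUp (I * y)).trans (mul_le_mul_of_nonneg_left (Real.exp_le_exp.2 ?_) hG'.le)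
      have c1 : (I * (y : ℂ)).re = 0 := by simp
      have c2 : ‖I * (y : ℂ)‖ ^ 2 = y ^ 2 := by
        rw [norm_mul, Complex.norm_I, one_mul, Complex.norm_real, Real.norm_eq_abs, sq_abs]
      rw [c1, c2, abs_zero, max_eq_right (by linarith)])
  refine hfin.trans ?_
  rw [mul_assoc, ← Real.exp_add]
  apply mul_le_mul_of_nonneg_left _ hU.hG.le
  apply Real.exp_le_exp.2
  have := mul_le_mul_of_nonneg_right hμκ hLp.le
  linarith

end Pool.Agent.W327.HF
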